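import Pool.Agent.H95.MW.Itr

/-! # Reduction to irreducible morphisms (MP_1fe246_co, module RED) -/

set_option autoImplicit false

namespace Pool.Agent.H68.MW

/-! ## one-sided words -/

/-- prefix of length `n` of a one-sided word -/
def pre {A : Type} (U : ℕ → A) (n : ℕ) : List A := (List.range n).map U

@[simp] theorem length_pre {A : Type} (U : ℕ → A) (n : ℕ) : (pre U n).length = n := by
  simp [pre]

theorem getElem_pre {A : Type} (U : ℕ → A) (n i : ℕ) (h : i < (pre U n).length) :
    (pre U n)[i] = U i := by
  simp [pre]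

theorem pre_succ {A : Type} (U : ℕ → A) (n : ℕ) : pre U (n + 1) = pre U n ++ [U n] := by
  simp [pre, List.range_succ]

/-- `L` is a prefix of the infinite word `U` -/
def IsPre {A : Type} (L : List A) (U : ℕ → A) : Prop := ∀ (i : ℕ) (h : i < L.length), L[i] = U i

theorem isPre_pre {A : Type} (U : ℕ → A) (n : ℕ) : IsPre (pre U n) U :=
  fun i h => getElem_pre U n i h

theorem IsPre.eq_pre {A : Type} {L : List A} {U : ℕ → A} (h : IsPre L U) : L = pre U L.length := by
  apply List.ext_getElem
  · simp
  · intro i h1 h2
    rw [h i h1, getElem_pre]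

theorem IsPre.of_prefix {A : Type} {L L' : List A} {U : ℕ → A} (h : IsPre L U) (hp : L' <+: L) :
    IsPre L' U := by
  intro i hi
  have hi' : i < L.length := lt_of_lt_of_le hi hp.length_le
  rw [hp.getElem hi, h i hi']

theorem pre_prefix {A : Type} (U : ℕ → A) {m n : ℕ} (h : m ≤ n) : pre U m <+: pre U n := by
  rw [List.prefix_iff_eq_take]
  apply List.ext_getElem
  · simp [h]
  · intro i h1 h2
    rw [getElem_pre, List.getElem_take, getElem_pre]

theorem IsPre.prefix_pre {A : Type} {L : List A} {U : ℕ → A} (h : IsPre L U) {n : ℕ}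
    (hn : L.length ≤ n) : L <+: pre U n := by
  rw [h.eq_pre]
  exact pre_prefix U hn

theorem flatMap_prefix {B A : Type} (θ : B → List A) {w w' : List B} (h : w <+: w') :
    w.flatMap θ <+: w'.flatMap θ := by
  obtain ⟨t, rfl⟩ := h
  rw [List.flatMap_append]
  exact List.prefix_append _ _

/-- `U` is (or at least begins with) the image of `v` -/
def Im {B A : Type} (θ : B → List A) (v : ℕ → B) (U : ℕ → A) : Prop :=
  ∀ n, IsPre ((pre v n).flatMap θ) U

/-- the image of `v` under `θ` is infinite -/
def Unb {B A : Type} (θ : B → List A) (v : ℕ → B) : Prop :=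
  ∀ m, ∃ n, m < ((pre v n).flatMap θ).length

theorem exists_im {B A : Type} (θ : B → List A) (v : ℕ → B) (h : Unb θ v) :
    ∃ U : ℕ → A, Im θ v U := by
  choose N hN using h
  refine ⟨fun i => ((pre v (N i)).flatMap θ)[i]'(hN i), fun n i hi => ?_⟩
  rcases le_total n (N i) with h1 | h1
  · exact (flatMap_prefix θ (pre_prefix v h1)).getElem hi
  · exact ((flatMap_prefix θ (pre_prefix v h1)).getElem (hN i)).symm

theorem Im.comp {B A C : Type} {θ : B → List A} {φ : A → List C} {v : ℕ → B} {U : ℕ → A}
    {W : ℕ → C} (h : Im θ v U) (h' : Im φ U W) : Im (fun b => (θ b).flatMap φ) v W := by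
  intro n
  have h1 := (h n).eq_pre
  rw [← flatMap_flatMap', h1]
  exact h' _

/-! ## adding the letter `none` on the left -/

/-- extension of a morphism by the letter `none` -/
def opt {B A : Type} (θ : B → List A) (L : List (Option A)) : Option B → List (Option A)
  | none => L
  | some b => (θ b).map some

theorem flatMap_opt {B A : Type} (θ : B → List A) (L : List (Option A)) (w : List B) :
    (w.map some).flatMap (opt θ L) = (w.flatMap θ).map some := by
  induction w with
  | nil => rfl
  | cons a w ih => simp [List.flatMap_cons, ih, opt]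

theorem itr_opt_some {B : Type} (τ : B → List B) (L : List (Option B)) (j : ℕ) (b : B) :
    itr (opt τ L) j (some b) = (itr τ j b).map some := by
  induction j with
  | zero => simp
  | succ j ih => rw [itr_succ, ih, flatMap_opt, itr_succ]

theorem itr_opt_none {B : Type} (τ : B → List B) (j : ℕ) :
    itr (opt τ [none, none]) j none = List.replicate (2 ^ j) none := by
  induction j with
  | zero => simp
  | succ j ih =>
    rw [itr_succ, ih]
    have : ∀ n : ℕ, (List.replicate n (none : Option B)).flatMap (opt τ [none, none])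
        = List.replicate (2 * n) none := by
      intro n
      induction n with
      | zero => simp
      | succ n ihn =>
        rw [List.replicate_succ, List.flatMap_cons, ihn]
        have e : 2 * (n + 1) = 2 * n + 1 + 1 := by ring
        rw [e, List.replicate_succ, List.replicate_succ]
        rfl
    rw [this]
    congr 1
    ring

theorem reduceOption_flatMap {C A : Type} (h : C → List (Option A)) (w : List C) :
    (w.flatMap h).reduceOption = w.flatMap (fun c => (h c).reduceOption) := by
  induction w with
  | nil => rfl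
  | cons a w ih => rw [List.flatMap_cons, List.flatMap_cons, List.reduceOption_append, ih]

theorem reduceOption_map_some {A : Type} (w : List A) : (w.map some).reduceOption = w := by
  induction w with
  | nil => rfl
  | cons a w ih => simp [List.reduceOption_cons_of_some, ih]

theorem irred_opt {B A : Type} [Fintype B] {θ : B → List A} (h : Irred θ)
    (θ' : Option B → List (Option A)) (h1 : ∀ b, θ' (some b) = (θ b).map some)
    (h2 : none ∈ θ' none) : Irred θ' := by
  classical
  intro C _ g hh hgh
  let p : C → Prop := fun c => ∃ b, c ∈ g (some b)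
  have hB : Fintype.card B ≤ Fintype.card {c // p c} := by
    refine h {c // p c} (fun b => (g (some b)).attach.map (fun c => ⟨c.1, ⟨b, c.2⟩⟩))
      (fun c => (hh c.1).reduceOption) (fun b => ?_)
    have e : ((g (some b)).attach.map (fun c => (⟨c.1, ⟨b, c.2⟩⟩ : {c // p c}))).flatMap
        (fun c => (hh c.1).reduceOption) = (g (some b)).flatMap (fun c => (hh c).reduceOption) := by
      rw [List.flatMap_map]
      conv_rhs => rw [← List.attach_map_subtype_val (g (some b))]
      rw [List.flatMap_map]
    rw [e, ← reduceOption_flatMap, ← hgh, h1, reduceOption_map_some]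
  obtain ⟨c, hc, hcn⟩ : ∃ c ∈ g none, none ∈ hh c := by
    rw [hgh none, List.mem_flatMap] at h2
    exact h2
  have hnp : ¬ p c := by
    rintro ⟨b, hb⟩
    have : (none : Option A) ∈ θ' (some b) := by
      rw [hgh (some b), List.mem_flatMap]
      exact ⟨c, hb, hcn⟩
    rw [h1] at this
    simp at this
  have hlt : Fintype.card {c // p c} < Fintype.card C := Fintype.card_subtype_lt hnp
  rw [Fintype.card_option]
  omega

/-- the two-sided extension of an image -/
theorem img_twoSided {B A : Type} {θ : B → List A} {v : ℕ → B} {U : ℕ → A} (hne : ∀ b, θ b ≠ [])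
    (h : Im θ v U) (ℓ : ℕ) (hℓ : 0 < ℓ) :
    ∃ c : ℤ → ℤ, c 0 = 0 ∧
      Img (opt θ (List.replicate ℓ none)) (twoSided v) (twoSided U) c := by
  refine ⟨fun i => if 0 ≤ i then (((pre v i.toNat).flatMap θ).length : ℤ) else ℓ * i, ?_, ?_, ?_, ?_⟩
  · simp [pre]
  · rintro (_ | b)
    · simp only [opt]
      intro h0
      have := congrArg List.length h0
      simp at this
      omega
    · simp only [opt]
      simpa using hne b
  · intro n
    by_cases h0 : 0 ≤ n
    · obtain ⟨m, rfl⟩ : ∃ m : ℕ, n = m := ⟨n.toNat, by omega⟩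
      have e : ((m : ℤ) + 1).toNat = m + 1 := by omega
      have e1 : (0 : ℤ) ≤ (m : ℤ) + 1 := by omega
      simp only [h0, e1, if_true, e, Int.toNat_natCast, pre_succ, List.flatMap_append,
        List.length_append, twoSided, opt]
      simp
    · by_cases h1 : n = -1
      · subst h1
        simp [twoSided, opt, pre]
      · have e1 : ¬ (0 : ℤ) ≤ n + 1 := by omega
        simp only [h0, e1, if_false, twoSided, opt, List.length_replicate]
        ring
  · intro n i hi
    by_cases h0 : 0 ≤ n
    · obtain ⟨m, rfl⟩ : ∃ m : ℕ, n = m := ⟨n.toNat, by omega⟩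
      simp only [h0, if_true, Int.toNat_natCast, twoSided] at hi ⊢
      have e1 : (0 : ℤ) ≤ (((pre v m).flatMap θ).length : ℤ) + i := by omega
      have e2 : ((((pre v m).flatMap θ).length : ℤ) + i).toNat = ((pre v m).flatMap θ).length + i := by
        omega
      simp only [e1, if_true, e2, opt] at hi ⊢
      rw [List.getElem_map]
      congr 1
      rw [List.length_map] at hi
      have h2 := h (m + 1) (((pre v m).flatMap θ).length + i) (by
        rw [pre_succ, List.flatMap_append, List.length_append]
        simpa using hi)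
      rw [← h2]
      simp only [pre_succ, List.flatMap_append]
      rw [List.getElem_append_right (by omega)]
      simp
    · simp only [h0, if_false, twoSided, opt, List.length_replicate] at hi ⊢
      have e1 : ¬ (0 : ℤ) ≤ (ℓ : ℤ) * n + i := by
        have : (ℓ : ℤ) * n ≤ ℓ * (-1) := mul_le_mul_of_nonneg_left (by omega) (by omega)
        push Not
        omega
      simp only [e1, if_false]
      simp

theorem length_flatMap_le {B A : Type} [Fintype B] (θ : B → List A) (w : List B) :
    (w.flatMap θ).length ≤ w.length * tl θ := by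
  induction w with
  | nil => simp
  | cons a w ih =>
    rw [List.flatMap_cons, List.length_append, List.length_cons]
    have := length_le_tl θ a
    nlinarith

theorem IsPre.exists_of_mem {A : Type} {L : List A} {U : ℕ → A} (h : IsPre L U) {a : A}
    (ha : a ∈ L) : ∃ j, a = U j := by
  obtain ⟨i, hi, rfl⟩ := List.mem_iff_getElem.1 ha
  exact ⟨i, h i hi⟩

theorem IsPre.pre_prefix {A : Type} {L : List A} {U : ℕ → A} (h : IsPre L U) {n : ℕ}
    (hn : n ≤ L.length) : pre U n <+: L := by
  rw [h.eq_pre]
  exact Pool.Agent.H68.MW.pre_prefix U hn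

theorem flatMap_congr' {B A : Type} {θ θ' : B → List A} (w : List B) (h : ∀ b ∈ w, θ b = θ' b) :
    w.flatMap θ = w.flatMap θ' := by
  induction w with
  | nil => rfl
  | cons a w ih =>
    rw [List.flatMap_cons, List.flatMap_cons, h a (by simp), ih (fun b hb => h b (by simp [hb]))]

theorem Irred.of_comp {B A C : Type} [Fintype B] {θ : B → List A} {φ : A → List C}
    (h : Irred (fun b => (θ b).flatMap φ)) : Irred θ := by
  intro D _ g k hgk
  refine h D g (fun d => (k d).flatMap φ) (fun b => ?_)
  simp only [hgk b]
  rw [flatMap_flatMap']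

theorem red {α : Type} [Fintype α] (u : ℕ → α)
    (hu : ∃ σ : α → List α,
        (∀ n i, i < ((fun w : List α => w.flatMap σ)^[n] [u 0]).length →
            ((fun w : List α => w.flatMap σ)^[n] [u 0])[i]? = some (u i)) ∧
        (∀ m, ∃ n, m < ((fun w : List α => w.flatMap σ)^[n] [u 0]).length)) :
    ∃ (B : Type) (_ : Fintype B) (τ : B → List B) (f : B → List (Option α)) (v : ℤ → B)
      (c c₀ : ℤ → ℤ) (z : B),
      (∀ j, Irred (itr τ j)) ∧ Irred f ∧ (∀ j, Irred (fun b => (itr τ j b).flatMap f)) ∧
      Img τ v v c ∧ Img f v (twoSided u) c₀ ∧ c 0 = 0 ∧ c₀ 0 = 0 ∧ (∀ b, ∃ i, v i = b) ∧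
      (∀ i, v i = z ↔ i < 0) ∧ τ z = [z, z] ∧ f z = [none] ∧
      (∀ m, ∃ j, m < (itr τ j (v 0)).length) := by
  classical
  obtain ⟨σ, hσ1, hσ2⟩ := hu
  have hit : ∀ n, (fun w : List α => w.flatMap σ)^[n] [u 0] = itr σ n (u 0) := by
    intro n
    rw [iterate_flatMap]
    simp
  simp only [hit] at hσ1 hσ2
  have hpre : ∀ n, IsPre (itr σ n (u 0)) u := by
    intro n i hi
    have := hσ1 n i hi
    rw [List.getElem?_eq_getElem hi] at this
    exact Option.some.inj this
  have hne : σ (u 0) ≠ [] := by
    intro h0
    obtain ⟨n, hn⟩ := hσ2 1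
    cases n with
    | zero => simp at hn
    | succ n =>
      rw [Nat.add_comm, itr_add] at hn
      simp [h0] at hn
  obtain ⟨x, hx⟩ : ∃ x, σ (u 0) = u 0 :: x := by
    have h1 := hpre 1
    rw [itr_one] at h1
    cases hs : σ (u 0) with
    | nil => exact absurd hs hne
    | cons a x =>
      rw [hs] at h1
      have := h1 0 (by simp)
      simp at this
      exact ⟨x, by rw [this]⟩
  have hmono : Monotone (fun n => (itr σ n (u 0)).length) := by
    apply monotone_nat_of_le_succ
    intro n
    show (itr σ n (u 0)).length ≤ (itr σ (n + 1) (u 0)).length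
    rw [Nat.add_comm, itr_add, itr_one, hx, List.flatMap_cons, List.length_append]
    omega
  have hIm : ∀ k, Im (itr σ k) u u := by
    intro k n
    obtain ⟨m, hm⟩ := hσ2 n
    have h1 : pre u n <+: itr σ m (u 0) := (hpre m).pre_prefix hm.le
    have h2 := flatMap_prefix (itr σ k) h1
    rw [← itr_add] at h2
    exact (hpre (m + k)).of_prefix h2
  have hUnb : ∀ k, Unb (itr σ k) u := by
    intro k M
    obtain ⟨n, hn⟩ := hσ2 M
    refine ⟨(itr σ n (u 0)).length, ?_⟩
    rw [← (hpre n).eq_pre, ← itr_add]
    exact lt_of_lt_of_le hn (hmono (Nat.le_add_right n k))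
  let P : ℕ → Prop := fun m => ∃ k, 1 ≤ k ∧ ∃ (B : Type) (_ : Fintype B) (g : α → List B)
    (f : B → List α), Fintype.card B = m ∧ ∀ i, itr σ k (u i) = (g (u i)).flatMap f
  have hP : ∃ m, P m := ⟨Fintype.card α, 1, le_rfl, α, inferInstance, fun a => [a], σ, rfl, by simp⟩
  obtain ⟨k, hk, B, hB, g, f, hcard, hgf⟩ := Nat.find_spec hP
  have hmin : ∀ (k' : ℕ) (_ : 1 ≤ k') (C : Type) [Fintype C] (g' : α → List C) (f' : C → List α),
      (∀ i, itr σ k' (u i) = (g' (u i)).flatMap f') → Fintype.card B ≤ Fintype.card C := by
    intro k' hk' C hC g' f' h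
    rw [hcard]
    exact Nat.find_min' hP ⟨k', hk', C, hC, g', f', rfl, h⟩
  have hocc : ∀ b : B, ∃ i, b ∈ g (u i) := by
    by_contra hcon
    push Not at hcon
    obtain ⟨b₀, hb₀⟩ := hcon
    let p : B → Prop := fun b => ∃ i, b ∈ g (u i)
    have h1 := hmin k hk {b // p b}
      (fun a => if h : ∀ b ∈ g a, p b then (g a).attach.map (fun b => ⟨b.1, h b.1 b.2⟩) else [])
      (fun b => f b.1) (by
        intro i
        have h : ∀ b ∈ g (u i), p b := fun b hb => ⟨i, hb⟩
        rw [dif_pos h, hgf i, List.flatMap_map]
        conv_lhs => rw [← List.attach_map_subtype_val (g (u i))]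
        rw [List.flatMap_map])
    have h2 : Fintype.card {b // p b} < Fintype.card B :=
      Fintype.card_subtype_lt (x := b₀) (by rintro ⟨i, hi⟩; exact hb₀ i hi)
    omega
  have hgfpre : ∀ n, ((pre u n).flatMap g).flatMap f = (pre u n).flatMap (itr σ k) := by
    intro n
    rw [flatMap_flatMap']
    apply flatMap_congr'
    intro a ha
    obtain ⟨j, rfl⟩ := (isPre_pre u n).exists_of_mem ha
    exact (hgf j).symm
  have hUg : Unb g u := by
    intro m
    obtain ⟨n, hn⟩ := hUnb k (m * tl f)
    refine ⟨n, ?_⟩
    rw [← hgfpre] at hn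
    by_contra hle
    push Not at hle
    have h1 := length_flatMap_le f ((pre u n).flatMap g)
    have h2 := Nat.mul_le_mul_right (tl f) hle
    omega
  obtain ⟨v, hv⟩ := exists_im g u hUg
  have hfv : Im f v u := by
    intro n
    obtain ⟨m, hm⟩ := hUg n
    have h1 := flatMap_prefix f ((hv m).pre_prefix hm.le)
    rw [hgfpre] at h1
    exact (hIm k m).of_prefix h1
  let τ : B → List B := fun b => (f b).flatMap g
  have hτv : Im τ v v := hfv.comp hv
  have hbv : ∀ b : B, ∃ j, b = v j := by
    intro b
    obtain ⟨i, hi⟩ := hocc b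
    refine (hv (i + 1)).exists_of_mem ?_
    rw [pre_succ, List.flatMap_append, List.mem_append]
    right
    simpa using hi
  have hfmem : ∀ b, ∀ a ∈ f b, ∃ i, a = u i := by
    intro b a ha
    obtain ⟨j, rfl⟩ := hbv b
    refine (hfv (j + 1)).exists_of_mem ?_
    rw [pre_succ, List.flatMap_append, List.mem_append]
    right
    simpa using ha
  have hcomm : ∀ j b, (itr τ j b).flatMap f = (f b).flatMap (itr σ (k * j)) := by
    intro j
    induction j with
    | zero => intro b; simp [show itr σ 0 = fun b => [b] from rfl]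
    | succ j ih =>
      intro b
      have e1 : (itr τ (j + 1) b).flatMap f = ((itr τ j b).flatMap f).flatMap (itr σ k) := by
        rw [itr_succ, flatMap_flatMap', flatMap_flatMap']
        apply flatMap_congr'
        intro b' _
        show ((f b').flatMap g).flatMap f = (f b').flatMap (itr σ k)
        rw [flatMap_flatMap']
        apply flatMap_congr'
        intro a ha
        obtain ⟨i, rfl⟩ := hfmem b' a ha
        exact (hgf i).symm
      rw [e1, ih, flatMap_flatMap', Nat.mul_succ]
      apply flatMap_congr'
      intro a _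
      rw [itr_add]
  have hirr : ∀ j, Irred (fun b => (itr τ j b).flatMap f) := by
    intro j C _ g1 h1 hgh
    refine hmin (k * (j + 1)) (Nat.mul_pos hk (Nat.succ_pos j)) C (fun a => (g a).flatMap g1) h1 ?_
    intro i
    rw [Nat.mul_succ, Nat.add_comm, itr_add, hgf i, flatMap_flatMap', flatMap_flatMap']
    apply flatMap_congr'
    intro b _
    rw [← hcomm]
    exact hgh b
  have hirrf : Irred f := by
    have := hirr 0
    simpa using this
  have hirrτ : ∀ j, Irred (itr τ j) := fun j => (hirr j).of_comp
  have hneτ : ∀ b, τ b ≠ [] := by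
    intro b
    have := (hirrτ 1).ne_nil b
    rwa [itr_one] at this
  obtain ⟨c, hc0, hc⟩ := img_twoSided hneτ hτv 2 (by norm_num)
  obtain ⟨c₀, hc₀0, hc₀⟩ := img_twoSided hirrf.ne_nil hfv 1 (by norm_num)
  have hr2 : List.replicate 2 (none : Option B) = [none, none] := rfl
  have hr1 : List.replicate 1 (none : Option α) = [none] := rfl
  rw [hr2] at hc
  rw [hr1] at hc₀
  have hirr' : ∀ j, Irred (fun b => (itr (opt τ [none, none]) j b).flatMap (opt f [none])) := by
    intro j
    apply irred_opt (hirr j)
    · intro b
      rw [itr_opt_some, flatMap_opt]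
    · rw [itr_opt_none, List.mem_flatMap]
      exact ⟨none, by simp, by simp [opt]⟩
  refine ⟨Option B, inferInstance, opt τ [none, none], opt f [none], twoSided v, c, c₀, none,
    fun j => (hirr' j).of_comp, ?_, hirr', hc, hc₀, hc0, hc₀0, ?_, ?_, rfl, rfl, ?_⟩
  · have := hirr' 0
    simpa using this
  · rintro (_ | b)
    · exact ⟨-1, by simp [twoSided]⟩
    · obtain ⟨j, rfl⟩ := hbv b
      exact ⟨j, by simp [twoSided]⟩
  · intro i
    by_cases h0 : 0 ≤ i
    · simp [twoSided, h0]
    · simp only [twoSided, h0, if_false, true_iff]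
      omega
  · intro m
    obtain ⟨j, hj⟩ := hσ2 (m * tl f)
    refine ⟨j, ?_⟩
    have hv0 : twoSided v 0 = some (v 0) := by simp [twoSided]
    rw [hv0, itr_opt_some, List.length_map]
    have h1 : (itr σ j (u 0)).length ≤ (itr σ (k * j) (u 0)).length :=
      hmono (Nat.le_mul_of_pos_left j hk)
    have h2 : ∃ y, f (v 0) = u 0 :: y := by
      have h3 := hfv 1
      have h4 : (pre v 1).flatMap f = f (v 0) := by simp [pre]
      rw [h4] at h3
      cases hs : f (v 0) with
      | nil => exact absurd hs (hirrf.ne_nil _)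
      | cons a x =>
        rw [hs] at h3
        have := h3 0 (by simp)
        simp at this
        exact ⟨x, by rw [this]⟩
    obtain ⟨y, hy⟩ := h2
    have h5 := hcomm j (v 0)
    rw [hy, List.flatMap_cons] at h5
    have h6 := congrArg List.length h5
    rw [List.length_append] at h6
    have h7 := length_flatMap_le f (itr τ j (v 0))
    by_contra hle
    push Not at hle
    have h8 := Nat.mul_le_mul_right (tl f) hle
    omega

end Pool.Agent.H68.MW
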