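import Pool.Agent.H68.MW.Defs

/-! # Iterates of a morphism (MP_1fe246_co) -/

set_option autoImplicit false

namespace Pool.Agent.H68.MW

/-- the `j`-th iterate of the morphism `τ` on letters -/
def itr {B : Type} (τ : B → List B) : ℕ → B → List B
  | 0, b => [b]
  | j + 1, b => (itr τ j b).flatMap τ

@[simp] theorem itr_zero {B : Type} (τ : B → List B) (b : B) : itr τ 0 b = [b] := rfl

theorem itr_succ {B : Type} (τ : B → List B) (j : ℕ) (b : B) :
    itr τ (j + 1) b = (itr τ j b).flatMap τ := rfl

@[simp] theorem itr_one {B : Type} (τ : B → List B) (b : B) : itr τ 1 b = τ b := by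
  simp [itr]

theorem flatMap_singleton' {B : Type} (w : List B) : w.flatMap (fun b => [b]) = w := by
  induction w with
  | nil => rfl
  | cons a w ih => simp [List.flatMap_cons, ih]

theorem flatMap_itr_succ {B : Type} (τ : B → List B) (j : ℕ) (w : List B) :
    w.flatMap (itr τ (j + 1)) = (w.flatMap (itr τ j)).flatMap τ := by
  rw [flatMap_flatMap']
  rfl

theorem itr_add {B : Type} (τ : B → List B) (i j : ℕ) (b : B) :
    itr τ (i + j) b = (itr τ i b).flatMap (itr τ j) := by
  induction j with
  | zero => simp [show itr τ 0 = fun b => [b] from rfl]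
  | succ j ih => rw [← Nat.add_assoc, itr_succ, ih, flatMap_itr_succ]

theorem itr_add' {B : Type} (τ : B → List B) (i j : ℕ) :
    itr τ (i + j) = fun b => (itr τ i b).flatMap (itr τ j) :=
  funext fun b => itr_add τ i j b

theorem itr_itr {B : Type} (τ : B → List B) (i j : ℕ) (b : B) :
    itr (itr τ i) j b = itr τ (i * j) b := by
  induction j with
  | zero => simp
  | succ j ih => rw [itr_succ, ih, Nat.mul_succ, itr_add]

theorem itr_itr' {B : Type} (τ : B → List B) (i j : ℕ) : itr (itr τ i) j = itr τ (i * j) :=
  funext fun b => itr_itr τ i j b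

theorem iterate_flatMap {B : Type} (τ : B → List B) (n : ℕ) (w : List B) :
    (fun w : List B => w.flatMap τ)^[n] w = w.flatMap (itr τ n) := by
  induction n with
  | zero => simp [show itr τ 0 = fun b => [b] from rfl]
  | succ n ih => rw [Function.iterate_succ_apply', ih, ← flatMap_itr_succ]

theorem itr_ne_nil {B : Type} {τ : B → List B} (h : ∀ b, τ b ≠ []) (j : ℕ) (b : B) :
    itr τ j b ≠ [] := by
  induction j with
  | zero => simp
  | succ j ih =>
    rw [itr_succ]
    intro h0
    rw [List.flatMap_eq_nil_iff] at h0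
    obtain ⟨x, hx⟩ := List.exists_mem_of_ne_nil _ ih
    exact h x (h0 x hx)

end Pool.Agent.H68.MW
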